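import Mathlib

/-! Nets in the integers and bi-infinite geodesics in their net graphs. -/

namespace Pool.Agent.H891R2.SSI

/-- separated and maximal subsets of the integers -/
structure ZNet (k : ℤ) (N : Set ℤ) : Prop where
  hk : 1 ≤ k
  sep : ∀ x ∈ N, ∀ y ∈ N, x < y → x + k ≤ y
  mx : ∀ p : ℤ, ∃ n ∈ N, |p - n| < k

variable {k : ℤ} {N : Set ℤ}

theorem ZNet.exists_next (h : ZNet k N) (x : ℤ) (hx : x ∈ N) :
    ∃ y ∈ N, x < y ∧ y ≤ x + 2 * k ∧ ∀ z ∈ N, z ≤ x + 2 * k → z ≤ y := by
  have hk := h.hk
  obtain ⟨y, ⟨hy1, hy2⟩, hy3⟩ := Int.exists_greatest_of_bdd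
    (P := fun y => y ∈ N ∧ y ≤ x + 2 * k) ⟨x + 2 * k, fun z hz => hz.2⟩ ⟨x, hx, by linarith⟩
  refine ⟨y, hy1, ?_, hy2, fun z hz hz' => hy3 z ⟨hz, hz'⟩⟩
  obtain ⟨n, hn, hn'⟩ := h.mx (x + k)
  rw [abs_lt] at hn'
  have := hy3 n ⟨hn, by linarith⟩
  linarith

theorem ZNet.neg (h : ZNet k N) : ZNet k (Neg.neg ⁻¹' N) where
  hk := h.hk
  sep := fun x hx y hy hxy => by
    have := h.sep (-y) hy (-x) hx (by linarith)
    linarith
  mx := fun p => by
    obtain ⟨n, hn, hn'⟩ := h.mx (-p)
    refine ⟨-n, by simpa using hn, ?_⟩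
    rw [abs_lt] at hn' ⊢
    constructor <;> linarith

/-- one-sided geodesic ray with a 1-Lipschitz height function -/
theorem ZNet.ray (h : ZNet k N) (v : ℤ) (hv : v ∈ N) :
    ∃ (a : ℕ → ℤ) (φ : ℤ → ℕ), a 0 = v ∧ (∀ m, a m ∈ N) ∧ (∀ m, a m < a (m + 1)) ∧
      (∀ m, a (m + 1) ≤ a m + 2 * k) ∧ (∀ m, φ (a m) = m) ∧
      (∀ x ∈ N, ∀ y ∈ N, v ≤ x → v ≤ y → |x - y| ≤ 2 * k → φ y ≤ φ x + 1) ∧
      (∀ x ∈ N, v ≤ x → ∃ m, |x - a m| ≤ 2 * k) := by
  classical
  choose F hF1 hF2 hF3 hF4 using h.exists_next
  let s : ℕ → {x : ℤ // x ∈ N} := fun m => Nat.rec ⟨v, hv⟩ (fun _ p => ⟨F p.1 p.2, hF1 p.1 p.2⟩) m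
  let a : ℕ → ℤ := fun m => (s m).1
  have ha0 : a 0 = v := rfl
  have haN : ∀ m, a m ∈ N := fun m => (s m).2
  have hs : ∀ m, a (m + 1) = F (a m) (haN m) := fun m => rfl
  have hlt : ∀ m, a m < a (m + 1) := fun m => by rw [hs]; exact hF2 _ _
  have hle : ∀ m, a (m + 1) ≤ a m + 2 * k := fun m => by rw [hs]; exact hF3 _ _
  have hmax : ∀ m, ∀ z ∈ N, z ≤ a m + 2 * k → z ≤ a (m + 1) := fun m z hz hz' => by
    rw [hs]; exact hF4 _ _ z hz hz'
  have hmono : StrictMono a := strictMono_nat_of_lt_succ hlt
  have hunb : ∀ x : ℤ, ∃ m, x ≤ a m := by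
    intro x
    have : ∀ m : ℕ, v + m ≤ a m := by
      intro m
      induction m with
      | zero => simp [ha0]
      | succ m ih =>
        have := hlt m
        push_cast
        linarith
    refine ⟨(x - v).toNat, ?_⟩
    have h1 := this (x - v).toNat
    have h2 := Int.self_le_toNat (x - v)
    linarith
  let φ : ℤ → ℕ := fun x => Nat.find (hunb x)
  have hφ1 : ∀ x, x ≤ a (φ x) := fun x => Nat.find_spec (hunb x)
  have hφ2 : ∀ x m, x ≤ a m → φ x ≤ m := fun x m hm => Nat.find_min' (hunb x) hm
  refine ⟨a, φ, ha0, haN, hlt, hle, ?_, ?_, ?_⟩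
  · intro m
    apply le_antisymm
    · exact hφ2 _ _ le_rfl
    · exact hmono.le_iff_le.1 (hφ1 (a m))
  · intro x hx y hy hvx hvy hxy
    apply hφ2
    apply hmax _ y hy
    have := hφ1 x
    rw [abs_le] at hxy
    linarith
  · intro x hx hvx
    rcases Nat.eq_zero_or_pos (φ x) with h0 | h0
    · refine ⟨0, ?_⟩
      have := hφ1 x
      rw [h0, ha0] at this
      rw [ha0, le_antisymm this hvx]
      have := h.hk
      simp
      linarith
    · obtain ⟨m, hm⟩ := Nat.exists_eq_succ_of_ne_zero h0.ne'
      refine ⟨m, ?_⟩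
      have h1 := hφ1 x
      rw [hm] at h1
      have h2 : a m < x := by
        by_contra hc
        have := hφ2 x m (not_lt.1 hc)
        omega
      have h3 := hle m
      rw [abs_le]
      constructor
      · have := h.hk; linarith
      · have : a (m + 1) = a m.succ := rfl
        linarith

/-- a bi-infinite geodesic with a 1-Lipschitz height function -/
theorem ZNet.line (h : ZNet k N) :
    ∃ (f : ℤ → ℤ) (φ : ℤ → ℤ), (∀ m, f m ∈ N) ∧ (∀ m, f m < f (m + 1) ∧ f (m + 1) ≤ f m + 2 * k) ∧
      (∀ m, φ (f m) = m) ∧ (∀ x ∈ N, ∀ y ∈ N, |x - y| ≤ 2 * k → |φ x - φ y| ≤ 1) ∧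
      (∀ x ∈ N, ∃ m, |x - f m| ≤ 2 * k) := by
  classical
  have hk := h.hk
  by_cases hc : ∃ v ∈ N, ∀ x ∈ N, ∀ y ∈ N, x < v → v < y → 2 * k < y - x
  · obtain ⟨v, hv, hcross⟩ := hc
    obtain ⟨a, φ, ha0, haN, halt, hale, hφa, hφL, had⟩ := h.ray v hv
    obtain ⟨b, ψ, hb0, hbN, hblt, hble, hψb, hψL, hbd⟩ := h.neg.ray (-v) (by simpa using hv)
    have hφv : φ v = 0 := by rw [← ha0, hφa]
    have hψv : ψ (-v) = 0 := by rw [← hb0, hψb]
    let f : ℤ → ℤ := fun m => if 0 ≤ m then a m.toNat else - b (-m).toNat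
    let χ : ℤ → ℤ := fun x => if v ≤ x then (φ x : ℤ) else - (ψ (-x) : ℤ)
    have ham : StrictMono a := strictMono_nat_of_lt_succ halt
    have hbm : StrictMono b := strictMono_nat_of_lt_succ hblt
    have hva : ∀ m, v ≤ a m := fun m => by rw [← ha0]; exact ham.monotone (Nat.zero_le m)
    have hvb : ∀ m, - v ≤ b m := fun m => by rw [← hb0]; exact hbm.monotone (Nat.zero_le m)
    have fpos : ∀ m : ℕ, f m = a m := fun m => by simp [f]
    have fneg : ∀ m : ℕ, f (-(m : ℤ)) = - b m := by
      intro m
      rcases Nat.eq_zero_or_pos m with h0 | h0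
      · subst h0; simp [f, ha0, hb0]
      · have h1 : ¬ (0 ≤ -(m : ℤ)) := by omega
        have h2 : f (-(m : ℤ)) = - b (- -(m : ℤ)).toNat := if_neg h1
        rw [h2, neg_neg, Int.toNat_natCast]
    have cases : ∀ m : ℤ, (∃ n : ℕ, m = n) ∨ ∃ n : ℕ, m = -((n : ℤ) + 1) := by
      intro m
      rcases le_or_gt 0 m with h0 | h0
      · exact Or.inl ⟨m.toNat, by omega⟩
      · exact Or.inr ⟨(-m - 1).toNat, by omega⟩
    refine ⟨f, χ, ?_, ?_, ?_, ?_, ?_⟩
    · intro m
      rcases cases m with ⟨n, rfl⟩ | ⟨n, rfl⟩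
      · rw [fpos]; exact haN n
      · have := fneg (n + 1)
        push_cast at this
        rw [this]; exact hbN (n + 1)
    · intro m
      rcases cases m with ⟨n, rfl⟩ | ⟨n, rfl⟩
      · have e : f ((n : ℤ) + 1) = a (n + 1) := by
          have := fpos (n + 1)
          push_cast at this
          exact this
        rw [e, fpos]
        exact ⟨halt n, hale n⟩
      · have e1 : f (-((n : ℤ) + 1)) = - b (n + 1) := by
          have := fneg (n + 1)
          push_cast at this
          exact this
        have e2 : f (-((n : ℤ) + 1) + 1) = - b n := by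
          have e3 : -((n : ℤ) + 1) + 1 = -(n : ℤ) := by ring
          rw [e3, fneg]
        rw [e1, e2]
        have h1 := hblt n
        have h2 := hble n
        constructor <;> linarith
    · intro m
      rcases cases m with ⟨n, rfl⟩ | ⟨n, rfl⟩
      · rw [fpos]
        have : χ (a n) = (φ (a n) : ℤ) := if_pos (hva n)
        rw [this, hφa]
      · have e1 : f (-((n : ℤ) + 1)) = - b (n + 1) := by
          have := fneg (n + 1)
          push_cast at this
          exact this
        have h1 : - b (n + 1) < v := by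
          have := hbm (Nat.succ_pos n)
          rw [hb0] at this
          have e : b n.succ = b (n + 1) := rfl
          linarith
        have : χ (- b (n + 1)) = - (ψ (- - b (n + 1)) : ℤ) := if_neg (not_le.2 h1)
        rw [e1, this, neg_neg, hψb]
        push_cast
        ring
    · intro x hx y hy hxy
      have hx' : - x ∈ Neg.neg ⁻¹' N := by simpa using hx
      have hy' : - y ∈ Neg.neg ⁻¹' N := by simpa using hy
      have hneg : |-x - -y| ≤ 2 * k := by
        have : -x - -y = -(x - y) := by ring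
        rw [this, abs_neg]; exact hxy
      rcases le_or_gt v x with vx | vx <;> rcases le_or_gt v y with vy | vy
      · have e1 : χ x = (φ x : ℤ) := if_pos vx
        have e2 : χ y = (φ y : ℤ) := if_pos vy
        have h1 := hφL x hx y hy vx vy hxy
        have h2 := hφL y hy x hx vy vx (by rw [abs_sub_comm]; exact hxy)
        rw [e1, e2, abs_le]
        constructor <;> omega
      · rcases eq_or_lt_of_le vx with rfl | vx'
        · have e1 : χ v = - (ψ (-v) : ℤ) := by
            have : χ v = (φ v : ℤ) := if_pos le_rfl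
            rw [this, hφv, hψv]; rfl
          have e2 : χ y = - (ψ (-y) : ℤ) := if_neg (not_le.2 vy)
          have h1 := hψL (-v) hx' (-y) hy' le_rfl (by linarith) hneg
          have h2 := hψL (-y) hy' (-v) hx' (by linarith) le_rfl (by rw [abs_sub_comm]; exact hneg)
          rw [e1, e2, abs_le]
          constructor <;> omega
        · have := hcross y hy x hx vy vx'
          rw [abs_le] at hxy
          linarith
      · rcases eq_or_lt_of_le vy with rfl | vy'
        · have e1 : χ v = - (ψ (-v) : ℤ) := by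
            have : χ v = (φ v : ℤ) := if_pos le_rfl
            rw [this, hφv, hψv]; rfl
          have e2 : χ x = - (ψ (-x) : ℤ) := if_neg (not_le.2 vx)
          have h1 := hψL (-v) hy' (-x) hx' le_rfl (by linarith) (by rw [abs_sub_comm]; exact hneg)
          have h2 := hψL (-x) hx' (-v) hy' (by linarith) le_rfl hneg
          rw [e1, e2, abs_le]
          constructor <;> omega
        · have := hcross x hx y hy vx vy'
          rw [abs_le] at hxy
          linarith
      · have e1 : χ x = - (ψ (-x) : ℤ) := if_neg (not_le.2 vx)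
        have e2 : χ y = - (ψ (-y) : ℤ) := if_neg (not_le.2 vy)
        have h1 := hψL (-x) hx' (-y) hy' (by linarith) (by linarith) hneg
        have h2 := hψL (-y) hy' (-x) hx' (by linarith) (by linarith)
          (by rw [abs_sub_comm]; exact hneg)
        rw [e1, e2, abs_le]
        constructor <;> omega
    · intro x hx
      rcases le_or_gt v x with vx | vx
      · obtain ⟨m, hm⟩ := had x hx vx
        exact ⟨m, by rw [fpos]; exact hm⟩
      · obtain ⟨m, hm⟩ := hbd (-x) (by simpa using hx) (by linarith)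
        refine ⟨-(m : ℤ), ?_⟩
        rw [fneg]
        have : x - - b m = -(-x - b m) := by ring
        rw [this, abs_neg]
        exact hm
  · push Not at hc
    obtain ⟨v, hv, -⟩ := h.mx 0
    have step : ∀ v ∈ N, v + k ∈ N ∧ v - k ∈ N := by
      intro v hv
      obtain ⟨x, hx, y, hy, h1, h2, h3⟩ := hc v hv
      have h4 := h.sep x hx v hv h1
      have h5 := h.sep v hv y hy h2
      have e1 : y = v + k := by linarith
      have e2 : x = v - k := by linarith
      rw [← e1, ← e2]
      exact ⟨hy, hx⟩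
    have hmem : ∀ j : ℤ, v + j * k ∈ N := by
      intro j
      induction j using Int.induction_on with
      | zero => simpa using hv
      | succ i ih =>
        have := (step _ ih).1
        have e : v + ((i : ℤ) + 1) * k = v + i * k + k := by ring
        rw [e]; exact this
      | pred i ih =>
        have := (step _ ih).2
        have e : v + (-(i : ℤ) - 1) * k = v + -i * k - k := by ring
        rw [e]; exact this
    have hall : ∀ x ∈ N, ∃ j : ℤ, x = v + j * k := by
      intro x hx
      refine ⟨(x - v) / k, ?_⟩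
      have h1 := Int.emod_add_mul_ediv (x - v) k
      have h2 := Int.emod_nonneg (x - v) (by omega : k ≠ 0)
      have h3 := Int.emod_lt_of_pos (x - v) (by omega : 0 < k)
      have h4 := hmem ((x - v) / k)
      rcases eq_or_lt_of_le h2 with h5 | h5
      · rw [← h5] at h1
        linarith
      · have h6 := h.sep _ h4 x hx (by linarith)
        exfalso
        linarith
    refine ⟨fun m => v + (2 * m) * k, fun x => (x - v) / (2 * k), fun m => hmem _, ?_, ?_, ?_, ?_⟩
    · intro m
      constructor
      · show v + (2 * m) * k < v + (2 * (m + 1)) * k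
        nlinarith
      · show v + (2 * (m + 1)) * k ≤ v + (2 * m) * k + 2 * k
        nlinarith
    · intro m
      show (v + (2 * m) * k - v) / (2 * k) = m
      have : v + (2 * m) * k - v = m * (2 * k) := by ring
      rw [this, Int.mul_ediv_cancel _ (by omega)]
    · intro x hx y hy hxy
      show |(x - v) / (2 * k) - (y - v) / (2 * k)| ≤ 1
      rw [abs_le] at hxy ⊢
      have hpos : 0 < 2 * k := by omega
      have h1 : (x - v) / (2 * k) ≤ (y - v) / (2 * k) + 1 := by
        have : (y - v) / (2 * k) + 1 = (y - v + 1 * (2 * k)) / (2 * k) := by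
          rw [Int.add_mul_ediv_right _ _ (by omega)]
        rw [this]
        exact Int.ediv_le_ediv hpos (by linarith)
      have h2 : (y - v) / (2 * k) ≤ (x - v) / (2 * k) + 1 := by
        have : (x - v) / (2 * k) + 1 = (x - v + 1 * (2 * k)) / (2 * k) := by
          rw [Int.add_mul_ediv_right _ _ (by omega)]
        rw [this]
        exact Int.ediv_le_ediv hpos (by linarith)
      constructor <;> linarith
    · intro x hx
      obtain ⟨j, rfl⟩ := hall x hx
      refine ⟨j / 2, ?_⟩
      show |v + j * k - (v + (2 * (j / 2)) * k)| ≤ 2 * k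
      have h1 := Int.emod_add_mul_ediv j 2
      have h2 := Int.emod_nonneg j (by norm_num : (2 : ℤ) ≠ 0)
      have h3 := Int.emod_lt_of_pos j (by norm_num : (0 : ℤ) < 2)
      have : v + j * k - (v + (2 * (j / 2)) * k) = (j % 2) * k := by
        have : j = j % 2 + 2 * (j / 2) := h1.symm
        have e : j % 2 = j - 2 * (j / 2) := by linarith
        rw [e]; ring
      rw [this, abs_of_nonneg (by positivity)]
      nlinarith

end Pool.Agent.H891R2.SSI
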